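import Pool.Agent.MP_781342_nt_QC.Proof

/-!
# A `q`-analogue of a congruence between two central binomial sums (MP_781342_nt, Q1)

The definitions of `Lsum`, `Rsum` and `CongMod` are in `Pool/Agent/MP_781342_nt_QC/Defs.lean`.
-/

open Finset Filter Topology Polynomial Pool.Agent.MP_781342_nt_QC

namespace Pool.Agent.Results.MP_781342_nt.CubeCongruence

/-- **Main theorem.**  For every odd `n`, `L_n(q) ≡ R_n(q) (mod Φ_n(q)^3)`. -/
theorem result : ∀ n : ℕ, Odd n →
    CongMod n 3 (Lsum n (RatFunc.X : RatFunc ℚ)) (Rsum n (RatFunc.X : RatFunc ℚ)) := by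
  rintro n ⟨s, rfl⟩
  set ζ : ℂ := Complex.exp (2 * Real.pi * Complex.I / ((2 * s + 1 : ℕ) : ℂ)) with hζdef
  have hζ : IsPrimitiveRoot ζ (2 * s + 1) := Complex.isPrimitiveRoot_exp _ (by omega)
  have hnorm : ‖ζ‖ = 1 := hζ.norm'_eq_one (by omega)
  have hmem : ζ ∈ closure (Metric.ball (0 : ℂ) 1) := by
    rw [closure_ball _ one_ne_zero]
    simp [hnorm]
  have : (𝓝[Metric.ball (0 : ℂ) 1] ζ).NeBot := mem_closure_iff_nhdsWithin_neBot.1 hmem
  have hl : ∀ Q : ℚ[X], Q ≠ 0 → ∀ᶠ z : ℂ in 𝓝[Metric.ball (0 : ℂ) 1] ζ, aeval z Q ≠ 0 := by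
    intro Q hQ
    have h1 : ∀ r : ℂ, ∀ᶠ z : ℂ in 𝓝[Metric.ball (0 : ℂ) 1] ζ, z ≠ r := by
      intro r
      by_cases hr : r = ζ
      · filter_upwards [self_mem_nhdsWithin] with z hz h
        rw [h, hr] at hz
        simp [hnorm] at hz
      · exact (continuousAt_id.eventually_ne (Ne.symm hr)).filter_mono nhdsWithin_le_nhds
    have h2 := (Filter.eventually_all_finset (Q.map (algebraMap ℚ ℂ)).roots.toFinset
      (l := 𝓝[Metric.ball (0 : ℂ) 1] ζ) (p := fun r z => z ≠ r)).2 fun r _ => h1 r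
    filter_upwards [h2] with z hz h
    refine hz z ?_ rfl
    rw [Multiset.mem_toFinset, mem_roots (Polynomial.map_ne_zero hQ), IsRoot.def, eval_map_algebraMap]
    exact h
  refine final_step hζ (by omega) nhdsWithin_le_nhds hl ((Rel.Lsum hl _).sub (Rel.Rsum hl _)) ?_
  have h := (limit_L hζ).sub (limit_R hζ)
  rw [limits_eq hζ, sub_self] at h
  refine h.congr' ?_
  filter_upwards [ev_good hζ] with z hz
  rw [Lsum_eq hz.2, Rsum_eq, ← sub_div]
  congr 1
  ring

end Pool.Agent.Results.MP_781342_nt.CubeCongruence
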